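import Pool.Agent.Lib.MP_fa837f_gt.P2.Iface

/-!
Project P2, module AL: the pointwise inequality for `tr ((Dh)^2)`, `h = A ∇ψ`.
-/

set_option autoImplicit false

open MeasureTheory Matrix Set Filter Topology

namespace Pool.Agent.Lib.MP_fa837f_gt.P2.H36

/-- Symmetric and antisymmetric parts. -/
theorem part {ι : Type} [Fintype ι] (w : ι → ℝ) (x : ι → ι → ℝ) :
    ∑ a, ∑ b, w a * w b * (x a b * x b a) =
      ∑ a, ∑ b, w a * w b * x a b ^ 2 -
        1 / 2 * ∑ a, ∑ b, w a * w b * (x a b - x b a) ^ 2 := by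
  have h : ∑ a, ∑ b, w a * w b * x b a ^ 2 = ∑ a, ∑ b, w a * w b * x a b ^ 2 := by
    rw [Finset.sum_comm]
    refine Finset.sum_congr rfl fun a _ => Finset.sum_congr rfl fun b _ => ?_
    ring
  have h2 : ∑ a, ∑ b, w a * w b * (x a b - x b a) ^ 2 =
      ∑ a, ∑ b, w a * w b * x a b ^ 2 + ∑ a, ∑ b, w a * w b * x b a ^ 2 -
        2 * ∑ a, ∑ b, w a * w b * (x a b * x b a) := by
    simp only [Finset.mul_sum, ← Finset.sum_add_distrib, ← Finset.sum_sub_distrib]
    refine Finset.sum_congr rfl fun a _ => Finset.sum_congr rfl fun b _ => ?_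
    ring
  rw [h2, h]
  ring

/-- The contraction with the projection property, used twice. -/
theorem core {n : ℕ} (B : Fin n → Fin n → ℝ) (r u : Fin n → ℝ) (symm : ∀ i j, B i j = B j i)
    (proj : ∀ i l, ∑ j, B i j * r j * B j l = B i l) :
    ∑ i, ∑ j, r i * r j * (∑ l, u l * B l i * B l j) ^ 2 =
      ∑ i, ∑ j, B i j ^ 2 * (u i * u j) := by
  have hM : ∀ i j, ∑ l, u l * B l i * B l j = ∑ l, u l * B l j * B l i := fun i j =>
    Finset.sum_congr rfl fun l _ => by ring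
  have h1 : ∀ i l, ∑ j, (∑ m, u m * B m i * B m j) * r j * B j l = ∑ m, u m * B m i * B m l := by
    intro i l
    simp only [Finset.sum_mul]
    rw [Finset.sum_comm]
    refine Finset.sum_congr rfl fun m _ => ?_
    rw [← proj m l, Finset.mul_sum]
    refine Finset.sum_congr rfl fun j _ => ?_
    ring
  have h2 : ∀ i, ∑ j, r i * r j * (∑ l, u l * B l i * B l j) ^ 2 =
      ∑ l, r i * (u l * B l i) * ∑ m, u m * B m i * B m l := by
    intro i
    have : ∀ j, r i * r j * (∑ l, u l * B l i * B l j) ^ 2 =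
        ∑ l, r i * (u l * B l i) * ((∑ m, u m * B m i * B m j) * r j * B j l) := by
      intro j
      rw [sq, ← mul_assoc, Finset.mul_sum]
      refine Finset.sum_congr rfl fun l _ => ?_
      rw [symm j l]
      ring
    rw [Finset.sum_congr rfl fun j _ => this j, Finset.sum_comm]
    refine Finset.sum_congr rfl fun l _ => ?_
    rw [← Finset.mul_sum, h1]
  rw [Finset.sum_congr rfl fun i _ => h2 i, Finset.sum_comm]
  refine Finset.sum_congr rfl fun l _ => ?_
  have h3 : ∑ i, r i * (u l * B l i) * ∑ m, u m * B m i * B m l =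
      u l * ∑ i, (∑ m, u m * B m l * B m i) * r i * B i l := by
    rw [Finset.mul_sum]
    refine Finset.sum_congr rfl fun i _ => ?_
    rw [hM l i, symm i l]
    ring
  rw [h3, h1, Finset.mul_sum]
  refine Finset.sum_congr rfl fun m _ => ?_
  rw [symm m l]
  ring

theorem Lpos {n k : ℕ} (S : Sys n k) (y : Pt k) (i : Fin n) : 0 < S.L y i := by
  unfold Sys.L Gm
  have : 0 ≤ ∑ c, Yv S.m y i c * Yv S.m y i c :=
    Finset.sum_nonneg fun c _ => mul_self_nonneg _
  have := S.he i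
  linarith

theorem rpos {n k : ℕ} (S : Sys n k) (y : Pt k) (i : Fin n) : 0 < S.r y i :=
  mul_pos (S.hc i) (Real.rpow_pos_of_pos (Lpos S y i) _)

theorem al_st (hWa : WaStatement) (hWs : WsStatement) (hAk : AkStatement) : AlStatement := by
  intro n k S ψ hψ y
  obtain ⟨hk1, hk2⟩ := hAk n k S ψ hψ y
  have hb := hWa n k S.m (S.r y) S.hm (rpos S y)
  have hw := hWs n k S.m (S.r y) S.hm (rpos S y)
  rw [hk1]
  set r := S.r y with hr
  set L := S.L y with hL
  set X := S.X ψ y with hX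
  set G : Fin n → Fin 3 → Fin 3 → ℝ := fun l c d =>
    Yv S.m y l d * Yv S.m (S.hf ψ y) l c - Yv S.m y l c * Yv S.m (S.hf ψ y) l d with hG
  -- pass to pairs
  have e1 : ∑ i, ∑ c, ∑ j, ∑ d, r i * r j * (X i c j d * X j d i c) =
      ∑ a : Fin n × Fin 3, ∑ b : Fin n × Fin 3,
        r a.1 * r b.1 * (X a.1 a.2 b.1 b.2 * X b.1 b.2 a.1 a.2) := by
    simp only [Fintype.sum_prod_type]
  have e2 : ∑ j, ∑ d, ∑ i, ∑ c, r j * (r i * X i c j d ^ 2) =
      ∑ a : Fin n × Fin 3, ∑ b : Fin n × Fin 3, r a.1 * r b.1 * X a.1 a.2 b.1 b.2 ^ 2 := by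
    have t : ∑ a : Fin n × Fin 3, ∑ b : Fin n × Fin 3, r a.1 * r b.1 * X a.1 a.2 b.1 b.2 ^ 2 =
        ∑ b : Fin n × Fin 3, ∑ a : Fin n × Fin 3, r a.1 * r b.1 * X a.1 a.2 b.1 b.2 ^ 2 :=
      Finset.sum_comm
    rw [t]
    simp only [Fintype.sum_prod_type]
    refine Finset.sum_congr rfl fun j _ => Finset.sum_congr rfl fun d _ =>
      Finset.sum_congr rfl fun i _ => Finset.sum_congr rfl fun c _ => ?_
    ring
  have e3 := part (fun a : Fin n × Fin 3 => r a.1) (fun a b => X a.1 a.2 b.1 b.2)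
  rw [e1, e2, e3]
  -- the antisymmetric part
  have e4 : ∑ a : Fin n × Fin 3, ∑ b : Fin n × Fin 3,
      r a.1 * r b.1 * (X a.1 a.2 b.1 b.2 - X b.1 b.2 a.1 a.2) ^ 2 =
      ∑ c, ∑ d, ∑ i, ∑ j, r i * r j *
        (∑ l, (2 * S.δ * (r l / L l) * G l c d) * be S.m r l i * be S.m r l j) ^ 2 := by
    simp only [Fintype.sum_prod_type]
    rw [Finset.sum_comm]
    refine Finset.sum_congr rfl fun c _ => ?_
    have : ∀ i : Fin n, ∑ j, ∑ d, r i * r j * (X i c j d - X j d i c) ^ 2 =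
        ∑ d, ∑ j, r i * r j *
        (∑ l, (2 * S.δ * (r l / L l) * G l c d) * be S.m r l i * be S.m r l j) ^ 2 := by
      intro i
      rw [Finset.sum_comm]
      refine Finset.sum_congr rfl fun d _ => Finset.sum_congr rfl fun j _ => ?_
      rw [hk2 i c j d]
      congr 2
      refine Finset.sum_congr rfl fun l _ => ?_
      simp only [hG]
      ring
    rw [Finset.sum_congr rfl fun i _ => this i, Finset.sum_comm]
  have e5 : ∀ c d : Fin 3, ∑ i, ∑ j, r i * r j *
        (∑ l, (2 * S.δ * (r l / L l) * G l c d) * be S.m r l i * be S.m r l j) ^ 2 =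
      ∑ i, ∑ j, be S.m r i j ^ 2 *
        ((2 * S.δ * (r i / L i) * G i c d) * (2 * S.δ * (r j / L j) * G j c d)) := fun c d =>
    core (be S.m r) r (fun l => 2 * S.δ * (r l / L l) * G l c d) hb.symm hb.proj
  set V : Fin n → (Fin 3 × Fin 3) → ℝ := fun l p => r l / L l * G l p.1 p.2 with hV
  have e6 : ∑ c, ∑ d, ∑ i, ∑ j, be S.m r i j ^ 2 *
        ((2 * S.δ * (r i / L i) * G i c d) * (2 * S.δ * (r j / L j) * G j c d)) =
      4 * S.δ ^ 2 * ∑ i, ∑ j, be S.m r i j ^ 2 * (V i ⬝ᵥ V j) := by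
    have t1 : ∀ c : Fin 3, ∑ d, ∑ i, ∑ j, be S.m r i j ^ 2 *
        ((2 * S.δ * (r i / L i) * G i c d) * (2 * S.δ * (r j / L j) * G j c d)) =
        ∑ i, ∑ j, ∑ d, be S.m r i j ^ 2 *
        ((2 * S.δ * (r i / L i) * G i c d) * (2 * S.δ * (r j / L j) * G j c d)) := by
      intro c
      rw [Finset.sum_comm]
      refine Finset.sum_congr rfl fun i _ => ?_
      rw [Finset.sum_comm]
    rw [Finset.sum_congr rfl fun c _ => t1 c, Finset.sum_comm, Finset.mul_sum]
    refine Finset.sum_congr rfl fun i _ => ?_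
    rw [Finset.sum_comm, Finset.mul_sum]
    refine Finset.sum_congr rfl fun j _ => ?_
    simp only [dotProduct, Fintype.sum_prod_type, Finset.mul_sum, hV]
    refine Finset.sum_congr rfl fun c _ => Finset.sum_congr rfl fun d _ => ?_
    ring
  have e7 := (hw (Fin 3 × Fin 3) V).2.2.2
  have e8 : ∀ l, be S.m r l l * (V l ⬝ᵥ V l) / r l =
      2 * ((r l * be S.m r l l) / L l ^ 2 *
        (Gm S.m y l l * Gm S.m (S.hf ψ y) l l -
          (∑ c, Yv S.m y l c * Yv S.m (S.hf ψ y) l c) ^ 2)) := by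
    intro l
    have hrl : r l ≠ 0 := (rpos S y l).ne'
    have hLl : L l ≠ 0 := (Lpos S y l).ne'
    have : V l ⬝ᵥ V l = (r l / L l) ^ 2 * (2 * (Gm S.m y l l * Gm S.m (S.hf ψ y) l l -
          (∑ c, Yv S.m y l c * Yv S.m (S.hf ψ y) l c) ^ 2)) := by
      simp only [dotProduct, Fintype.sum_prod_type, hV, hG, Gm, Fin.sum_univ_three]
      ring
    rw [this]
    field_simp
  rw [Finset.sum_congr rfl fun l _ => e8 l, ← Finset.mul_sum] at e7
  rw [e4, Finset.sum_congr rfl fun c _ => Finset.sum_congr rfl fun d _ => e5 c d, e6]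
  have hδ : 0 ≤ 4 * S.δ ^ 2 := by positivity
  have e9 := mul_le_mul_of_nonneg_left e7 hδ
  linarith

end Pool.Agent.Lib.MP_fa837f_gt.P2.H36
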